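import Pool.Agent.W916.CY.MainA

set_option autoImplicit false
set_option maxHeartbeats 1000000

/-! MAINP : one subgroup. -/

namespace Pool.Agent.W916.CY

open Finset
open Pool.Agent.W192.CY

open Classical in
/-- indicator of the residues in `H` -/
noncomputable def ai (q : ℕ) (H : Subgroup (ZMod q)ˣ) (k : ℕ) : ℝ :=
  if (∃ u ∈ H, ((u : (ZMod q)ˣ) : ZMod q) = (k : ZMod q)) then 1 else 0

theorem ai_abs (q : ℕ) (H : Subgroup (ZMod q)ˣ) (k : ℕ) : |ai q H k| ≤ 1 := by
  unfold ai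
  split_ifs <;> simp

theorem ai_one (q : ℕ) (H : Subgroup (ZMod q)ˣ) : ai q H 1 = 1 := by
  unfold ai
  rw [if_pos]
  exact ⟨1, H.one_mem, by simp⟩

theorem pe_bound {c m : ℕ → ℝ} (h : Inv c m) (hc : c 1 = 1) (η C1 : ℝ) (hη1 : η < 1 / 8)
    (hC1pos : 0 < C1) (hC1 : ∀ n : ℕ, 1 ≤ n → (n.divisors.card : ℝ) ^ 3 ≤ C1 * (n : ℝ) ^ η)
    (q : ℕ) (H : Subgroup (ZMod q)ˣ) (Bx X : ℝ) (hBx : 1 ≤ Bx) (hX : 0 < X) :
    |∑' k : ℕ, ai q H k * GG c m ⌊Bx⌋₊ X k / k - EE X 1| ≤
      Bx ^ 5 / X + C1 * tail q H Bx (Bx * X) η := by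
  classical
  obtain ⟨B, hB⟩ : ∃ B : ℕ, B = ⌊Bx⌋₊ := ⟨_, rfl⟩
  rw [← hB]
  have hB1 : 1 ≤ B := by rw [hB]; exact Nat.le_floor (by simpa using hBx)
  have hBle : (B : ℝ) ≤ Bx := by rw [hB]; exact Nat.floor_le (by linarith)
  have hBiff : ∀ k : ℕ, k ≤ B ↔ (k : ℝ) ≤ Bx := by
    intro k; rw [hB]; exact Nat.le_floor_iff (by linarith)
  obtain ⟨hs, _⟩ := reindex h B X hX (ai q H) 1 (ai_abs q H)
  let p : ℕ → ℝ := fun k => ai q H k * GG c m B X k / k
  have hs' : Summable p := hs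
  let f1 : ℕ → ℝ := fun k => if k ≤ B then p k else 0
  let f2 : ℕ → ℝ := fun k => if k ≤ B then 0 else p k
  have hf1 : Summable f1 := by
    refine summable_of_ne_finset_zero (s := range (B + 1)) (fun k hk => ?_)
    rw [mem_range] at hk
    exact if_neg (by omega)
  have hf2 : Summable f2 := by
    have : f2 = fun k => p k - f1 k := by
      funext k
      show (if k ≤ B then (0 : ℝ) else p k) = p k - (if k ≤ B then p k else 0)
      split_ifs <;> simp
    rw [this]
    exact hs'.sub hf1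
  have hsplit : ∑' k, p k = ∑' k, f1 k + ∑' k, f2 k := by
    rw [← hf1.tsum_add hf2]
    refine tsum_congr (fun k => ?_)
    show p k = (if k ≤ B then p k else 0) + (if k ≤ B then (0 : ℝ) else p k)
    split_ifs <;> simp
  have ht1 : ∑' k, f1 k = ∑ k ∈ range (B + 1), f1 k := by
    refine tsum_eq_sum (fun k hk => ?_)
    rw [mem_range] at hk
    exact if_neg (by omega)
  have hp0 : f1 0 = 0 := by
    show (if 0 ≤ B then ai q H 0 * GG c m B X 0 / ((0 : ℕ) : ℝ) else 0) = 0
    simp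
  have hp1 : f1 1 = EE X 1 := by
    show (if 1 ≤ B then ai q H 1 * GG c m B X 1 / ((1 : ℕ) : ℝ) else 0) = EE X 1
    rw [if_pos hB1, ai_one, GG_one h hc B X hB1]
    simp
  have hsum1 : |∑ k ∈ range (B + 1), f1 k - EE X 1| ≤ Bx ^ 5 / X := by
    have e1 : ∑ k ∈ range (B + 1), f1 k - EE X 1 = ∑ k ∈ Ico 2 (B + 1), f1 k := by
      rw [range_eq_Ico, ← sum_Ico_consecutive f1 (Nat.zero_le 2) (by omega : 2 ≤ B + 1)]
      have : ∑ k ∈ Ico 0 2, f1 k = f1 0 + f1 1 := by
        rw [← range_eq_Ico, sum_range_succ, sum_range_one]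
      rw [this, hp0, hp1]
      ring
    rw [e1]
    calc |∑ k ∈ Ico 2 (B + 1), f1 k| ≤ ∑ k ∈ Ico 2 (B + 1), |f1 k| := abs_sum_le_sum_abs _ _
      _ ≤ ∑ k ∈ Ico 2 (B + 1), (B : ℝ) ^ 4 / X := by
          refine sum_le_sum (fun k hk => ?_)
          rw [mem_Ico] at hk
          have hkB : k ≤ B := by omega
          have hkpos : (0 : ℝ) < k := by exact_mod_cast (by omega : 0 < k)
          show |if k ≤ B then ai q H k * GG c m B X k / (k : ℝ) else 0| ≤ _
          rw [if_pos hkB, abs_div, abs_mul, Nat.abs_cast]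
          have g1 := GG_small h B X hX hk.1 hkB
          have g2 := ai_abs q H k
          calc |ai q H k| * |GG c m B X k| / k ≤ 1 * ((k : ℝ) ^ 5 / X) / k := by
                gcongr
            _ = (k : ℝ) ^ 4 / X := by field_simp
            _ ≤ (B : ℝ) ^ 4 / X := by
                have : (k : ℝ) ≤ B := by exact_mod_cast hkB
                gcongr
      _ = (B - 1 : ℕ) * ((B : ℝ) ^ 4 / X) := by
          rw [sum_const, Nat.card_Ico, nsmul_eq_mul]
          congr 2
      _ ≤ B * ((B : ℝ) ^ 4 / X) := by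
          have : ((B - 1 : ℕ) : ℝ) ≤ B := by exact_mod_cast Nat.sub_le B 1
          gcongr
      _ = (B : ℝ) ^ 5 / X := by ring
      _ ≤ Bx ^ 5 / X := by gcongr
  -- the tail
  let tf : ℕ → ℝ := fun k => Set.indicator {k : ℕ | Bx < k ∧ ∃ u ∈ H,
    ((u : (ZMod q)ˣ) : ZMod q) = (k : ZMod q)}
    (fun k : ℕ => (k : ℝ) ^ (-1 / 2 + η) * Real.exp (-(k / (Bx * X)))) k
  have htf0 : ∀ k, 0 ≤ tf k := by
    intro k
    refine Set.indicator_nonneg (fun k _ => ?_) k
    positivity
  have hstf : Summable tf := by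
    refine Summable.of_norm_bounded (g := fun n : ℕ => (n : ℝ) ^ 0 * EE (Bx * X) n)
      (summ_EE (Bx * X) (by positivity) 0) (fun k => ?_)
    rw [Real.norm_eq_abs, abs_of_nonneg (htf0 k), pow_zero, one_mul]
    show Set.indicator _ _ k ≤ _
    rw [Set.indicator_apply]
    split_ifs with hk
    · have hk1 : (1 : ℝ) ≤ k := hBx.trans hk.1.le
      have : (k : ℝ) ^ (-1 / 2 + η) ≤ 1 := Real.rpow_le_one_of_one_le_of_nonpos hk1 (by linarith)
      have h2 := Real.exp_pos (-((k : ℝ) / (Bx * X)))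
      unfold EE
      nlinarith
    · exact (EE_pos _ _).le
  have ht2 : |∑' k, f2 k| ≤ C1 * tail q H Bx (Bx * X) η := by
    rw [← Real.norm_eq_abs]
    have hsumtail : HasSum (fun k => C1 * tf k) (C1 * tail q H Bx (Bx * X) η) :=
      hstf.hasSum.mul_left C1
    refine tsum_of_norm_bounded hsumtail (fun k => ?_)
    rw [Real.norm_eq_abs]
    show |if k ≤ B then (0 : ℝ) else ai q H k * GG c m B X k / k| ≤ _
    by_cases hkB : k ≤ B
    · rw [if_pos hkB, abs_zero]
      exact mul_nonneg hC1pos.le (htf0 k)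
    · rw [if_neg hkB]
      have hkBx : Bx < k := by
        by_contra hcon
        exact hkB ((hBiff k).2 (not_lt.1 hcon))
      by_cases hu : ∃ u ∈ H, ((u : (ZMod q)ˣ) : ZMod q) = (k : ZMod q)
      · have hk1 : 1 ≤ k := by omega
        have hkpos : (0 : ℝ) < k := by exact_mod_cast hk1
        have e1 : ai q H k = 1 := by unfold ai; rw [if_pos hu]
        have e2 : tf k = (k : ℝ) ^ (-1 / 2 + η) * Real.exp (-(k / (Bx * X))) := by
          show Set.indicator _ _ k = _
          rw [Set.indicator_of_mem]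
          exact ⟨hkBx, hu⟩
        rw [e1, e2, one_mul, abs_div, Nat.abs_cast, div_le_iff₀ hkpos]
        refine (GG_large h B Bx X hX hBle (by linarith) hk1).trans ?_
        have e3 : (k : ℝ) ^ (-1 / 2 + η) * k = (k : ℝ) ^ η * Real.sqrt k := by
          rw [Real.sqrt_eq_rpow, ← Real.rpow_add hkpos]
          nth_rewrite 2 [← Real.rpow_one (k : ℝ)]
          rw [← Real.rpow_add hkpos]
          congr 1
          ring
        calc (k.divisors.card : ℝ) ^ 3 * Real.sqrt k * Real.exp (-((k : ℝ) / (Bx * X))) ≤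
              (C1 * (k : ℝ) ^ η) * Real.sqrt k * Real.exp (-((k : ℝ) / (Bx * X))) := by
              have := hC1 k hk1
              gcongr
          _ = C1 * ((k : ℝ) ^ η * Real.sqrt k) * Real.exp (-((k : ℝ) / (Bx * X))) := by ring
          _ = C1 * ((k : ℝ) ^ (-1 / 2 + η) * k) * Real.exp (-((k : ℝ) / (Bx * X))) := by rw [e3]
          _ = _ := by ring
      · have e1 : ai q H k = 0 := by unfold ai; rw [if_neg hu]
        rw [e1]
        simp only [zero_mul, zero_div, abs_zero]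
        exact mul_nonneg hC1pos.le (htf0 k)
  have hfin : ∑' k : ℕ, ai q H k * GG c m B X k / k - EE X 1 =
      (∑ k ∈ range (B + 1), f1 k - EE X 1) + ∑' k, f2 k := by
    have : ∑' k : ℕ, ai q H k * GG c m B X k / k = ∑' k, p k := rfl
    rw [this, hsplit, ht1]
    ring
  rw [hfin]
  exact (abs_add_le _ _).trans (add_le_add hsum1 ht2)

end Pool.Agent.W916.CY
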