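import Pool.Agent.W192.CY.Stm

set_option autoImplicit false
set_option maxHeartbeats 1000000

/-! MAINP : the real analysis part. -/

namespace Pool.Agent.W916.CY

open Finset
open Pool.Agent.W192.CY

/-- the exponential weight -/
noncomputable def EE (X : ℝ) (n : ℕ) : ℝ := Real.exp (-((n : ℝ) / X))

/-- the coefficients after multiplication by the mollifier -/
noncomputable def GG (c m : ℕ → ℝ) (B : ℕ) (X : ℝ) (k : ℕ) : ℝ :=
  ∑ b ∈ (Icc 1 B).filter (fun b => b ∣ k), m b * c (k / b) * EE X (k / b)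

theorem EE_pos (X : ℝ) (n : ℕ) : 0 < EE X n := Real.exp_pos _

theorem tau_le (n : ℕ) : n.divisors.card ≤ n := Nat.card_divisors_le_self n

theorem tau_mono {b k : ℕ} (hk : k ≠ 0) (h : b ∣ k) : b.divisors.card ≤ k.divisors.card :=
  card_le_card (Nat.divisors_subset_of_dvd hk h)

theorem c_bound {c m : ℕ → ℝ} (h : Inv c m) (n : ℕ) : |c n| ≤ (n : ℝ) ^ 2 := by
  rcases Nat.eq_zero_or_pos n with h0 | h0
  · subst h0; rw [h.zero]; simp
  · refine (h.cle n h0).trans ?_
    have h1 : (n.divisors.card : ℝ) ≤ n := by exact_mod_cast tau_le n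
    have h2 : Real.sqrt n ≤ n := by
      have hn : (1 : ℝ) ≤ n := by exact_mod_cast h0
      rw [Real.sqrt_le_left (by linarith)]
      nlinarith
    rw [pow_two]
    exact mul_le_mul h1 h2 (Real.sqrt_nonneg _) (by positivity)

theorem summ_EE (X : ℝ) (hX : 0 < X) (k : ℕ) : Summable (fun n : ℕ => (n : ℝ) ^ k * EE X n) := by
  have := Real.summable_pow_mul_exp_neg_nat_mul k (r := 1 / X) (by positivity)
  refine this.congr (fun n => ?_)
  unfold EE
  congr 2
  ring

theorem summ_c {c m : ℕ → ℝ} (h : Inv c m) (X : ℝ) (hX : 0 < X) (a : ℕ → ℝ) (A : ℝ)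
    (ha : ∀ n, |a n| ≤ A) : Summable (fun n : ℕ => a n * c n / n * EE X n) := by
  have hA : 0 ≤ A := (abs_nonneg _).trans (ha 0)
  refine Summable.of_norm_bounded (g := fun n : ℕ => A * ((n : ℝ) ^ 1 * EE X n))
    ((summ_EE X hX 1).mul_left A) (fun n => ?_)
  rw [Real.norm_eq_abs, abs_mul, abs_div, abs_mul, abs_of_pos (EE_pos X n), Nat.abs_cast]
  have h1 : |c n| / n ≤ n := by
    rcases Nat.eq_zero_or_pos n with h0 | h0
    · subst h0; simp
    · rw [div_le_iff₀ (by exact_mod_cast h0), ← pow_two]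
      exact c_bound h n
  rw [pow_one]
  calc |a n| * |c n| / n * EE X n = |a n| * (|c n| / n) * EE X n := by ring
    _ ≤ A * n * EE X n := by
        have := EE_pos X n
        gcongr
        exact ha n
    _ = _ := by ring

/-- reindexing -/
theorem reindex {c m : ℕ → ℝ} (h : Inv c m) (B : ℕ) (X : ℝ) (hX : 0 < X) (W : ℕ → ℝ) (A : ℝ)
    (hW : ∀ n, |W n| ≤ A) :
    Summable (fun k : ℕ => W k * GG c m B X k / k) ∧
    ∑ b ∈ Icc 1 B, m b / b * ∑' n : ℕ, W (b * n) * c n / n * EE X n =
      ∑' k : ℕ, W k * GG c m B X k / k := by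
  classical
  let hb : ℕ → ℕ → ℝ := fun b k => if b ∣ k then W k * (m b * c (k / b) * EE X (k / b)) / k else 0
  have key : ∀ b ∈ Icc 1 B, Summable (hb b) ∧
      m b / b * ∑' n : ℕ, W (b * n) * c n / n * EE X n = ∑' k, hb b k := by
    intro b hbm
    have hb1 : 1 ≤ b := (mem_Icc.1 hbm).1
    have hb0 : b ≠ 0 := by omega
    have hinj : Function.Injective (fun n : ℕ => b * n) := fun x y hxy =>
      Nat.eq_of_mul_eq_mul_left hb1 hxy
    have hcomp : ∀ n, hb b (b * n) = m b / b * (W (b * n) * c n / n * EE X n) := by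
      intro n
      show (if b ∣ b * n then W (b * n) * (m b * c (b * n / b) * EE X (b * n / b)) / ((b * n : ℕ) : ℝ)
        else 0) = _
      rw [if_pos (Dvd.intro n rfl), Nat.mul_div_cancel_left n hb1]
      push_cast
      have hbR : (b : ℝ) ≠ 0 := by exact_mod_cast hb0
      rcases Nat.eq_zero_or_pos n with h0 | h0
      · subst h0; simp
      · have hnR : (n : ℝ) ≠ 0 := by exact_mod_cast h0.ne'
        field_simp
    have hout : ∀ x ∉ Set.range (fun n : ℕ => b * n), hb b x = 0 := by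
      intro x hx
      show (if b ∣ x then _ else 0) = _
      rw [if_neg]
      rintro ⟨y, rfl⟩
      exact hx ⟨y, rfl⟩
    have hs1 : Summable (fun n => hb b (b * n)) := by
      have := (summ_c h X hX (fun n => W (b * n)) A (fun n => hW _)).mul_left (m b / b)
      exact this.congr (fun n => (hcomp n).symm)
    constructor
    · exact (hinj.summable_iff hout).1 hs1
    · rw [← tsum_mul_left]
      rw [← hinj.tsum_eq (f := hb b)]
      · exact tsum_congr (fun n => (hcomp n).symm)
      · intro x hx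
        by_contra hcon
        exact hx (hout x hcon)
  have hpt : ∀ k, ∑ b ∈ Icc 1 B, hb b k = W k * GG c m B X k / k := by
    intro k
    show ∑ b ∈ Icc 1 B, (if b ∣ k then W k * (m b * c (k / b) * EE X (k / b)) / k else 0) = _
    rw [← sum_filter]
    unfold GG
    rw [mul_sum, sum_div]
  constructor
  · have := summable_sum (s := Icc 1 B) (f := hb) (fun b hb' => (key b hb').1)
    refine this.congr (fun k => ?_)
    rw [hpt k]
  · rw [sum_congr rfl (fun b hb' => (key b hb').2), ← Summable.tsum_finsetSum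
      (fun b hb' => (key b hb').1)]
    exact tsum_congr hpt

theorem sqrt_split {b k : ℕ} (h : b ∣ k) : Real.sqrt b * Real.sqrt ((k / b : ℕ) : ℝ) =
    Real.sqrt k := by
  rw [← Real.sqrt_mul (by positivity)]
  congr 1
  have := Nat.mul_div_cancel' h
  exact_mod_cast this

theorem term_bound {c m : ℕ → ℝ} (h : Inv c m) {b k : ℕ} (hk : 1 ≤ k) (hb : b ∣ k) :
    |m b * c (k / b)| ≤ (k.divisors.card : ℝ) ^ 2 * Real.sqrt k := by
  have hb1 : 1 ≤ b := Nat.pos_of_dvd_of_pos hb hk
  have hkb : 1 ≤ k / b := Nat.div_pos (Nat.le_of_dvd hk hb) hb1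
  have hkb' : k / b ∣ k := Nat.div_dvd_of_dvd hb
  have t1 : (b.divisors.card : ℝ) ≤ k.divisors.card := by
    exact_mod_cast tau_mono (by omega) hb
  have t2 : ((k / b).divisors.card : ℝ) ≤ k.divisors.card := by
    exact_mod_cast tau_mono (by omega) hkb'
  rw [abs_mul]
  calc |m b| * |c (k / b)| ≤ (b.divisors.card * Real.sqrt b) *
        ((k / b).divisors.card * Real.sqrt ((k / b : ℕ) : ℝ)) :=
        mul_le_mul (h.mle b hb1) (h.cle _ hkb) (abs_nonneg _) (by positivity)
    _ = b.divisors.card * (k / b).divisors.card * (Real.sqrt b * Real.sqrt ((k / b : ℕ) : ℝ)) := by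
        ring
    _ = b.divisors.card * (k / b).divisors.card * Real.sqrt k := by rw [sqrt_split hb]
    _ ≤ k.divisors.card * k.divisors.card * Real.sqrt k := by gcongr
    _ = _ := by ring

theorem filt_card {B k : ℕ} (hk : 1 ≤ k) :
    ((Icc 1 B).filter (fun b => b ∣ k)).card ≤ k.divisors.card := by
  refine card_le_card (fun b hb => ?_)
  rw [mem_filter] at hb
  exact Nat.mem_divisors.2 ⟨hb.2, by omega⟩

/-- large k -/
theorem GG_large {c m : ℕ → ℝ} (h : Inv c m) (B : ℕ) (Bx X : ℝ) (hX : 0 < X) (hB : (B : ℝ) ≤ Bx)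
    (hBx : 0 < Bx) {k : ℕ} (hk : 1 ≤ k) :
    |GG c m B X k| ≤ (k.divisors.card : ℝ) ^ 3 * Real.sqrt k * Real.exp (-((k : ℝ) / (Bx * X))) := by
  unfold GG
  calc |∑ b ∈ (Icc 1 B).filter (fun b => b ∣ k), m b * c (k / b) * EE X (k / b)| ≤
        ∑ b ∈ (Icc 1 B).filter (fun b => b ∣ k), |m b * c (k / b) * EE X (k / b)| :=
        abs_sum_le_sum_abs _ _
    _ ≤ ∑ b ∈ (Icc 1 B).filter (fun b => b ∣ k),
        (k.divisors.card : ℝ) ^ 2 * Real.sqrt k * Real.exp (-((k : ℝ) / (Bx * X))) := by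
        refine sum_le_sum (fun b hb => ?_)
        rw [mem_filter, mem_Icc] at hb
        obtain ⟨⟨hb1, hbB⟩, hbk⟩ := hb
        rw [abs_mul, abs_of_pos (EE_pos _ _)]
        have hE : EE X (k / b) ≤ Real.exp (-((k : ℝ) / (Bx * X))) := by
          unfold EE
          apply Real.exp_le_exp.2
          apply neg_le_neg
          have hbR : (0 : ℝ) < b := by exact_mod_cast hb1
          have e1 : (((k / b : ℕ)) : ℝ) = (k : ℝ) / b := by
            rw [Nat.cast_div hbk hbR.ne']
          rw [e1, div_div, mul_comm Bx X, mul_comm (b : ℝ) X]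
          have hbB' : (b : ℝ) ≤ Bx := le_trans (by exact_mod_cast hbB) hB
          gcongr
        exact mul_le_mul (term_bound h hk hbk) hE (EE_pos _ _).le (by positivity)
    _ = ((Icc 1 B).filter (fun b => b ∣ k)).card *
        ((k.divisors.card : ℝ) ^ 2 * Real.sqrt k * Real.exp (-((k : ℝ) / (Bx * X)))) := by
        rw [sum_const, nsmul_eq_mul]
    _ ≤ k.divisors.card *
        ((k.divisors.card : ℝ) ^ 2 * Real.sqrt k * Real.exp (-((k : ℝ) / (Bx * X)))) := by
        have : (((Icc 1 B).filter (fun b => b ∣ k)).card : ℝ) ≤ k.divisors.card := by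
          exact_mod_cast filt_card hk
        gcongr
    _ = _ := by ring

/-- small k -/
theorem GG_small {c m : ℕ → ℝ} (h : Inv c m) (B : ℕ) (X : ℝ) (hX : 0 < X) {k : ℕ} (hk : 2 ≤ k)
    (hkB : k ≤ B) : |GG c m B X k| ≤ (k : ℝ) ^ 5 / X := by
  have hf : (Icc 1 B).filter (fun b => b ∣ k) = k.divisors := by
    ext b
    rw [mem_filter, mem_Icc, Nat.mem_divisors]
    constructor
    · rintro ⟨_, hb⟩; exact ⟨hb, by omega⟩
    · rintro ⟨hb, _⟩
      exact ⟨⟨Nat.pos_of_dvd_of_pos hb (by omega), (Nat.le_of_dvd (by omega) hb).trans hkB⟩, hb⟩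
  have h0 : ∑ b ∈ k.divisors, m b * c (k / b) = 0 := by
    have h1 := h.inv k (by omega)
    rw [if_neg (by omega)] at h1
    rw [← Nat.sum_divisorsAntidiagonal (fun a b => m a * c b)]
    exact h1
  have hG : GG c m B X k = ∑ b ∈ k.divisors, m b * c (k / b) * (EE X (k / b) - 1) := by
    unfold GG
    rw [hf]
    have : ∑ b ∈ k.divisors, m b * c (k / b) * (EE X (k / b) - 1) =
        ∑ b ∈ k.divisors, m b * c (k / b) * EE X (k / b) - ∑ b ∈ k.divisors, m b * c (k / b) := by
      rw [← sum_sub_distrib]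
      exact sum_congr rfl (fun b _ => by ring)
    rw [this, h0, sub_zero]
  have hkR : (1 : ℝ) ≤ k := by exact_mod_cast (by omega : 1 ≤ k)
  have htk : (k.divisors.card : ℝ) ≤ k := by exact_mod_cast tau_le k
  have hsq : Real.sqrt k ≤ k := by
    rw [Real.sqrt_le_left (by linarith)]
    nlinarith
  rw [hG]
  calc |∑ b ∈ k.divisors, m b * c (k / b) * (EE X (k / b) - 1)| ≤
        ∑ b ∈ k.divisors, |m b * c (k / b) * (EE X (k / b) - 1)| := abs_sum_le_sum_abs _ _
    _ ≤ ∑ b ∈ k.divisors, (k : ℝ) ^ 2 * k * ((k : ℝ) / X) := by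
        refine sum_le_sum (fun b hb => ?_)
        rw [Nat.mem_divisors] at hb
        rw [abs_mul]
        have e1 : |m b * c (k / b)| ≤ (k : ℝ) ^ 2 * k := by
          refine (term_bound h (by omega) hb.1).trans ?_
          gcongr
        have e2 : |EE X (k / b) - 1| ≤ (k : ℝ) / X := by
          have e3 : EE X (k / b) ≤ 1 := by
            unfold EE
            rw [Real.exp_le_one_iff]
            have : (0 : ℝ) ≤ ((k / b : ℕ) : ℝ) / X := by positivity
            linarith
          rw [abs_of_nonpos (by linarith)]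
          have e4 : 1 - ((k / b : ℕ) : ℝ) / X ≤ EE X (k / b) := by
            unfold EE
            have := Real.add_one_le_exp (-(((k / b : ℕ) : ℝ) / X))
            linarith
          have e5 : ((k / b : ℕ) : ℝ) / X ≤ (k : ℝ) / X := by
            have : ((k / b : ℕ) : ℝ) ≤ k := by exact_mod_cast Nat.div_le_self k b
            gcongr
          linarith
        exact mul_le_mul e1 e2 (abs_nonneg _) (by positivity)
    _ = k.divisors.card * ((k : ℝ) ^ 2 * k * ((k : ℝ) / X)) := by rw [sum_const, nsmul_eq_mul]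
    _ ≤ k * ((k : ℝ) ^ 2 * k * ((k : ℝ) / X)) := by gcongr
    _ = _ := by ring

theorem GG_one {c m : ℕ → ℝ} (h : Inv c m) (hc : c 1 = 1) (B : ℕ) (X : ℝ) (hB : 1 ≤ B) :
    GG c m B X 1 = EE X 1 := by
  have hf : (Icc 1 B).filter (fun b => b ∣ 1) = {1} := by
    ext b
    rw [mem_filter, mem_Icc, mem_singleton, Nat.dvd_one]
    constructor
    · rintro ⟨_, hb⟩; exact hb
    · rintro rfl; exact ⟨⟨le_rfl, hB⟩, rfl⟩
  unfold GG
  rw [hf, sum_singleton, h.one]
  norm_num [hc]

end Pool.Agent.W916.CY
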